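import Pool.Agent.Helper15.FC.St1

/-!
Module MAT of project FC: the matrix model of the ring `F[X]/(r) x F[X]/(X^(N+1))`.
-/

set_option autoImplicit false

namespace Pool.Agent.Helper21.FC

open Pool.Agent.Helper15.FC Polynomial

/-- the product of the commuting factors `A - a i B` in terms of the coefficients -/
private theorem list_prod_eq {L M : Type} [Field L] [Ring M] [Algebra L M] (A B : M)
    (hAB : A * B = B * A) (a : ℕ → L) (s : ℕ) :
    ((List.range s).map (fun i => A - a i • B)).prod =
      ∑ j ∈ Finset.range (s + 1),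
        (∏ i ∈ Finset.range s, (X - C (a i)) : L[X]).coeff j • (A ^ j * B ^ (s - j)) := by
  induction s with
  | zero => simp
  | succ s ih =>
    rw [List.range_succ, List.map_append, List.prod_append, ih]
    set g : L[X] := ∏ i ∈ Finset.range s, (X - C (a i)) with hg
    have hdeg : g.natDegree = s := by
      rw [hg, Polynomial.natDegree_finsetProd_X_sub_C_eq_card, Finset.card_range]
    have hg1 : g.coeff (s + 1) = 0 := Polynomial.coeff_eq_zero_of_natDegree_lt (by omega)
    have hprod : (∏ i ∈ Finset.range (s + 1), (X - C (a i)) : L[X]) = g * (X - C (a s)) := by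
      rw [Finset.prod_range_succ]
    rw [hprod]
    have hc : Commute A B := hAB
    have h1 : ∀ j, (g * (X - C (a s))).coeff j = (g * X).coeff j - a s * g.coeff j := by
      intro j
      rw [mul_sub, Polynomial.coeff_sub, Polynomial.coeff_mul_C, mul_comm (a s)]
    have h2 : ∑ j ∈ Finset.range (s + 1 + 1),
        (g * (X - C (a s))).coeff j • (A ^ j * B ^ (s + 1 - j)) =
        ∑ j ∈ Finset.range (s + 1 + 1), (g * X).coeff j • (A ^ j * B ^ (s + 1 - j)) -
        ∑ j ∈ Finset.range (s + 1 + 1), (a s * g.coeff j) • (A ^ j * B ^ (s + 1 - j)) := by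
      rw [← Finset.sum_sub_distrib]
      refine Finset.sum_congr rfl fun j _ => ?_
      rw [h1, sub_smul]
    rw [h2]
    have h3 : ∑ j ∈ Finset.range (s + 1 + 1), (g * X).coeff j • (A ^ j * B ^ (s + 1 - j)) =
        (∑ j ∈ Finset.range (s + 1), g.coeff j • (A ^ j * B ^ (s - j))) * A := by
      rw [Finset.sum_range_succ', Finset.sum_mul]
      have h0 : (g * X).coeff 0 = 0 := by simp
      rw [h0, zero_smul, add_zero]
      refine Finset.sum_congr rfl fun j _ => ?_
      rw [Polynomial.coeff_mul_X, smul_mul_assoc]
      congr 1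
      have h4 : B ^ (s - j) * A = A * B ^ (s - j) := (hc.symm.pow_left (s - j)).eq
      rw [mul_assoc, h4, ← mul_assoc, ← pow_succ]
      congr 2
      omega
    have h5 : ∑ j ∈ Finset.range (s + 1 + 1), (a s * g.coeff j) • (A ^ j * B ^ (s + 1 - j)) =
        (∑ j ∈ Finset.range (s + 1), g.coeff j • (A ^ j * B ^ (s - j))) * (a s • B) := by
      rw [Finset.sum_range_succ, hg1, mul_zero, zero_smul, add_zero, Finset.sum_mul]
      refine Finset.sum_congr rfl fun j hj => ?_
      have hj' : j ≤ s := Nat.lt_succ_iff.1 (Finset.mem_range.1 hj)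
      rw [smul_mul_smul_comm, mul_comm (a s)]
      congr 1
      rw [mul_assoc, ← pow_succ]
      congr 2
      omega
    rw [h3, h5]
    simp [mul_sub]

/-- the reverse in coefficients -/
private theorem reverse_eq {F : Type} [Field F] (f : F[X]) :
    f.reverse = ∑ j ∈ Finset.range (f.natDegree + 1), C (f.coeff j) * X ^ (f.natDegree - j) := by
  ext n
  rw [Polynomial.coeff_reverse, Polynomial.finsetSum_coeff]
  simp only [Polynomial.coeff_C_mul_X_pow]
  by_cases hn : n ≤ f.natDegree
  · rw [Polynomial.revAt_le hn, Finset.sum_eq_single (f.natDegree - n)]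
    · rw [if_pos (by omega)]
    · intro j hj hne
      have := Finset.mem_range.1 hj
      rw [if_neg (by omega)]
    · intro h
      exact absurd (Finset.mem_range.2 (by omega)) h
  · push Not at hn
    have h1 : Polynomial.revAt f.natDegree n = n := by
      change (if n ≤ f.natDegree then f.natDegree - n else n) = n
      rw [if_neg (by omega)]
    rw [h1, Polynomial.coeff_eq_zero_of_natDegree_lt hn, Finset.sum_eq_zero]
    intro j hj
    rw [if_neg (by omega)]

theorem hMAT : StMAT := by
  intro F _ _ r N hr
  classical
  have hfin : Module.Finite F (AdjoinRoot r) := (AdjoinRoot.powerBasis' hr).finite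
  have hfin2 : Module.Finite F (TN F N) :=
    (AdjoinRoot.powerBasis' (Polynomial.monic_X_pow (N + 1) : (X ^ (N + 1) : F[X]).Monic)).finite
  set b : ℕ := Module.finrank F (AdjoinRoot r × TN F N) with hb
  let bas : Module.Basis (Fin b) F (AdjoinRoot r × TN F N) :=
    Module.finBasis F (AdjoinRoot r × TN F N)
  let lm := Algebra.leftMulMatrix bas
  let al : AdjoinRoot r × TN F N := (AdjoinRoot.root r, 1)
  let be : AdjoinRoot r × TN F N := (1, AdjoinRoot.root (X ^ (N + 1) : F[X]))
  have hcls : ∀ f : F[X], cls r N f = ∑ j ∈ Finset.range (f.natDegree + 1),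
      (f.coeff j) • (al ^ j * be ^ (f.natDegree - j)) := by
    intro f
    refine Prod.ext ?_ ?_
    · rw [Prod.fst_sum]
      simp only [cls, al, be, Prod.smul_fst, Prod.fst_mul, Prod.pow_fst, one_pow, mul_one]
      conv_lhs => rw [f.as_sum_range_C_mul_X_pow]
      rw [map_sum]
      refine Finset.sum_congr rfl fun j _ => ?_
      rw [map_mul, map_pow, AdjoinRoot.mk_X, Algebra.smul_def]
      rfl
    · rw [Prod.snd_sum]
      simp only [cls, al, be, Prod.smul_snd, Prod.snd_mul, Prod.pow_snd, one_pow, one_mul]
      rw [reverse_eq f, map_sum]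
      refine Finset.sum_congr rfl fun j _ => ?_
      rw [map_mul, map_pow, AdjoinRoot.mk_X, Algebra.smul_def]
      rfl
  refine ⟨b, lm al, lm be, bas.repr 1, fun f => lm (cls r N f), ?_, ?_, ?_, ?_, ?_, ?_⟩
  · rw [← map_mul, ← map_mul, mul_comm]
  · have h1 : cls r N (1 : F[X]) = 1 := by
      refine Prod.ext ?_ ?_
      · simp [cls]
      · simp only [cls]
        have : (1 : F[X]).reverse = 1 := by
          rw [← Polynomial.C_1, Polynomial.reverse_C]
        rw [this, map_one]
        rfl
    simp only [h1, map_one]
  · intro f g _ _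
    have h1 : cls r N (f * g) = cls r N f * cls r N g := by
      refine Prod.ext ?_ ?_
      · simp [cls]
      · simp only [cls, Prod.snd_mul]
        rw [Polynomial.reverse_mul_of_domain, map_mul]
    simp only [h1, map_mul]
  · intro f g _ _ h
    simp only [h]
  · intro f g _ _ h
    have h1 : ∀ x : AdjoinRoot r × TN F N, (lm x).mulVec (bas.repr 1) = bas.repr x := by
      intro x
      have := Algebra.leftMulMatrix_mulVec_repr bas x 1
      rw [mul_one] at this
      exact this
    simp only [h1] at h
    exact bas.repr.injective (DFunLike.coe_injective h)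
  · intro L _ _ s a f hf hprod
    have hdeg : f.natDegree = s := by
      have h1 := congrArg Polynomial.natDegree hprod
      rwa [Polynomial.natDegree_map, Polynomial.natDegree_finsetProd_X_sub_C_eq_card,
        Finset.card_range] at h1
    have hcomm : (lm al).map (algebraMap F L) * (lm be).map (algebraMap F L) =
        (lm be).map (algebraMap F L) * (lm al).map (algebraMap F L) := by
      rw [← Matrix.map_mul, ← Matrix.map_mul, ← map_mul, ← map_mul, mul_comm]
    rw [list_prod_eq _ _ hcomm a s, ← hprod]
    have h2 : lm (cls r N f) = ∑ j ∈ Finset.range (s + 1),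
        (f.coeff j) • ((lm al) ^ j * (lm be) ^ (s - j)) := by
      rw [hcls f, map_sum, hdeg]
      refine Finset.sum_congr rfl fun j _ => ?_
      rw [map_smul, map_mul, map_pow, map_pow]
    have h3 : ∀ M : Matrix (Fin b) (Fin b) F, M.map (algebraMap F L) =
        (algebraMap F L).mapMatrix M := fun M => rfl
    change (lm (cls r N f)).map (algebraMap F L) = _
    rw [h2, h3, h3, h3, map_sum]
    refine Finset.sum_congr rfl fun j _ => ?_
    have h4 : (algebraMap F L).mapMatrix (lm al) ^ j * (algebraMap F L).mapMatrix (lm be) ^ (s - j) =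
        (algebraMap F L).mapMatrix (lm al ^ j * lm be ^ (s - j)) := by
      rw [map_mul (algebraMap F L).mapMatrix, map_pow (algebraMap F L).mapMatrix,
        map_pow (algebraMap F L).mapMatrix]
    rw [Polynomial.coeff_map, h4]
    ext i k
    rw [RingHom.mapMatrix_apply, RingHom.mapMatrix_apply, Matrix.smul_apply, Matrix.map_apply,
      Matrix.map_apply, Matrix.smul_apply, smul_eq_mul, smul_eq_mul,
      map_mul (algebraMap F L)]

end Pool.Agent.Helper21.FC
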